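import Pool.Agent.N569.FB.Defs

/-!
# FB3: expansion of the normalised brackets in the numbers of full twists

The normalised bracket is, at every evaluation point, an exponential sum in the numbers of full
twists with known bases. Interpolation at the numbers of full twists `j e ≤ n e / 2` gives the
coefficients as Laurent polynomials, up to a common denominator.
-/

set_option autoImplicit false

namespace Pool.Agent.N123.FB

open Pool.Agent.H891R2.Jones Pool.Agent.W639.RB Pool.Agent.TH561 Pool.Agent.N569.TW Pool.Agent.N569.VT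
  Pool.Agent.N569.FB Pool.Agent.H297.FT Finset LaurentPolynomial

/-! ### exponents -/

theorem ex_mono {p : ℤ[T;T⁻¹]} {b c : ℤ} (h : Ex p b) (hbc : b ≤ c) : Ex p c :=
  fun n hn => (h n hn).trans hbc

theorem ex_zero (b : ℤ) : Ex 0 b := by
  intro n hn
  exact absurd rfl hn

theorem ex_T {c b : ℤ} (h : |c| ≤ b) : Ex (T c) b := by
  intro n hn
  rw [T_apply] at hn
  by_cases hc : c = n
  · rw [← hc]
    exact h
  · rw [if_neg hc] at hn
    exact absurd rfl hn

theorem ex_one : Ex 1 0 := by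
  rw [← T_zero]
  exact ex_T (by simp)

theorem ex_add {p q : ℤ[T;T⁻¹]} {b : ℤ} (hp : Ex p b) (hq : Ex q b) : Ex (p + q) b := by
  intro n hn
  rw [AddMonoidAlgebra.coeff_add, Finsupp.add_apply] at hn
  by_cases h : p.coeff n = 0
  · rw [h, zero_add] at hn
    exact hq n hn
  · exact hp n h

theorem ex_neg {p : ℤ[T;T⁻¹]} {b : ℤ} (hp : Ex p b) : Ex (-p) b := by
  intro n hn
  rw [AddMonoidAlgebra.coeff_neg, Finsupp.neg_apply] at hn
  exact hp n (neg_ne_zero.1 hn)

theorem ex_sub {p q : ℤ[T;T⁻¹]} {b : ℤ} (hp : Ex p b) (hq : Ex q b) : Ex (p - q) b := by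
  rw [sub_eq_add_neg]
  exact ex_add hp (ex_neg hq)

theorem ex_sum {ι : Type*} (s : Finset ι) (g : ι → ℤ[T;T⁻¹]) (b : ℤ) (h : ∀ i ∈ s, Ex (g i) b) :
    Ex (∑ i ∈ s, g i) b := by
  classical
  induction s using Finset.induction_on with
  | empty => exact ex_zero b
  | insert i s hi ih =>
    rw [Finset.sum_insert hi]
    exact ex_add (h i (Finset.mem_insert_self _ _))
      (ih fun j hj => h j (Finset.mem_insert_of_mem hj))

theorem ex_mul {p q : ℤ[T;T⁻¹]} {b c : ℤ} (hp : Ex p b) (hq : Ex q c) : Ex (p * q) (b + c) := by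
  intro n hn
  have h1 := AddMonoidAlgebra.support_coeff_mul_subset p q (Finsupp.mem_support_iff.2 hn)
  obtain ⟨i, hi, j, hj, rfl⟩ := Finset.mem_add.1 h1
  exact (abs_add_le i j).trans
    (add_le_add (hp i (Finsupp.mem_support_iff.1 hi)) (hq j (Finsupp.mem_support_iff.1 hj)))

theorem ex_prod {ι : Type*} (s : Finset ι) (g : ι → ℤ[T;T⁻¹]) (b : ι → ℤ)
    (h : ∀ i ∈ s, Ex (g i) (b i)) : Ex (∏ i ∈ s, g i) (∑ i ∈ s, b i) := by
  classical
  induction s using Finset.induction_on with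
  | empty => exact ex_one
  | insert i s hi ih =>
    rw [Finset.prod_insert hi, Finset.sum_insert hi]
    exact ex_mul (h i (Finset.mem_insert_self _ _))
      (ih fun j hj => h j (Finset.mem_insert_of_mem hj))

/-- all coefficients of `p` have exponents in `[-b, b]` -/
def ExP (p : Polynomial ℤ[T;T⁻¹]) (b : ℤ) : Prop := ∀ j, Ex (p.coeff j) b

theorem exP_one : ExP 1 0 := by
  intro j
  rw [Polynomial.coeff_one]
  split_ifs
  · exact ex_one
  · exact ex_zero 0

theorem exP_mul {p q : Polynomial ℤ[T;T⁻¹]} {b c : ℤ} (hp : ExP p b) (hq : ExP q c) :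
    ExP (p * q) (b + c) := by
  intro j
  rw [Polynomial.coeff_mul]
  exact ex_sum _ _ _ fun x _ => ex_mul (hp _) (hq _)

theorem exP_lin {c M : ℤ} (h : |c| ≤ M) : ExP (Polynomial.X - Polynomial.C (T c)) M := by
  intro j
  have hM : 0 ≤ M := (abs_nonneg c).trans h
  rw [Polynomial.coeff_sub]
  refine ex_sub ?_ ?_
  · rw [Polynomial.coeff_X]
    split_ifs
    · exact ex_mono ex_one hM
    · exact ex_zero M
  · rw [Polynomial.coeff_C]
    split_ifs
    · exact ex_T h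
    · exact ex_zero M

theorem exP_prod {ι : Type*} (s : Finset ι) (w : ι → ℤ) (M : ℤ) (h : ∀ i ∈ s, |w i| ≤ M) :
    ExP (∏ i ∈ s, (Polynomial.X - Polynomial.C (T (w i)))) (s.card * M) := by
  classical
  induction s using Finset.induction_on with
  | empty => simpa using exP_one
  | insert i s hi ih =>
    rw [Finset.prod_insert hi, Finset.card_insert_of_notMem hi]
    have h1 := exP_mul (exP_lin (h i (Finset.mem_insert_self _ _)))
      (ih fun j hj => h j (Finset.mem_insert_of_mem hj))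
    have h2 : ((s.card + 1 : ℕ) : ℤ) * M = M + s.card * M := by
      push_cast
      ring
    rw [h2]
    exact h1

theorem T_inj' {a b : ℤ} (h : (T a : ℤ[T;T⁻¹]) = T b) : a = b := by
  by_contra hne
  have h1 := congrArg (fun p : ℤ[T;T⁻¹] => p.coeff a) h
  simp only [T_apply, if_true] at h1
  rw [if_neg (Ne.symm hne)] at h1
  exact one_ne_zero h1

theorem T_sum {ι : Type*} (s : Finset ι) (g : ι → ℤ) :
    (T (∑ i ∈ s, g i) : ℤ[T;T⁻¹]) = ∏ i ∈ s, T (g i) := by
  classical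
  induction s using Finset.induction_on with
  | empty => simp
  | insert i s hi ih => rw [Finset.sum_insert hi, Finset.prod_insert hi, T_add, ih]

/-! ### interpolation -/

section interp

variable {k : ℕ} (d : Fin k → ℕ) (w : (e : Fin k) → Fin (d e + 1) → ℤ)

/-- the product of the linear factors, one of them omitted -/
noncomputable def PX (e : Fin k) (i : Fin (d e + 1)) : Polynomial ℤ[T;T⁻¹] :=
  ∏ s ∈ Finset.univ.erase i, (Polynomial.X - Polynomial.C (T (w e s)))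

/-- the values of the products at the omitted points -/
noncomputable def DD (r : (e : Fin k) → Fin (d e + 1)) : ℤ[T;T⁻¹] :=
  ∏ e, (PX d w e (r e)).eval (T (w e (r e)))

/-- the interpolation functional -/
noncomputable def LL (f : (Fin k → ℤ) → ℤ[T;T⁻¹]) (r : (e : Fin k) → Fin (d e + 1)) :
    ℤ[T;T⁻¹] :=
  ∑ j : (e : Fin k) → Fin (d e + 1), (∏ e, (PX d w e (r e)).coeff (j e)) *
    f (fun e => ((j e : ℕ) : ℤ))

theorem PX_eval_sum (e : Fin k) (i : Fin (d e + 1)) (x : ℤ[T;T⁻¹]) :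
    (PX d w e i).eval x = ∑ j : Fin (d e + 1), (PX d w e i).coeff j * x ^ (j : ℕ) := by
  have hdeg : (PX d w e i).natDegree < d e + 1 := by
    unfold PX
    rw [Polynomial.natDegree_finsetProd_X_sub_C_eq_card, Finset.card_erase_of_mem
      (Finset.mem_univ _), Finset.card_univ, Fintype.card_fin]
    omega
  rw [Polynomial.eval_eq_sum_range' hdeg, Finset.sum_range]

theorem DD_ne (hw : ∀ e, Function.Injective (w e)) (r : (e : Fin k) → Fin (d e + 1)) :
    DD d w r ≠ 0 := by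
  unfold DD
  rw [Finset.prod_ne_zero_iff]
  intro e _
  unfold PX
  rw [Polynomial.eval_prod, Finset.prod_ne_zero_iff]
  intro s hs
  rw [Polynomial.eval_sub, Polynomial.eval_X, Polynomial.eval_C, sub_ne_zero]
  intro h
  exact Finset.ne_of_mem_erase hs (hw e (T_inj' h)).symm

theorem PX_eval_zero (r r' : (e : Fin k) → Fin (d e + 1)) (h : r' ≠ r) :
    ∏ e, (PX d w e (r e)).eval (T (w e (r' e))) = 0 := by
  obtain ⟨e, he⟩ := Function.ne_iff.1 h
  refine Finset.prod_eq_zero (Finset.mem_univ e) ?_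
  unfold PX
  rw [Polynomial.eval_prod]
  refine Finset.prod_eq_zero (Finset.mem_erase.2 ⟨he, Finset.mem_univ _⟩) ?_
  rw [Polynomial.eval_sub, Polynomial.eval_X, Polynomial.eval_C, sub_self]

theorem DD_ex (M : ℤ) (hM : ∀ e s, |w e s| ≤ M) (r : (e : Fin k) → Fin (d e + 1)) :
    Ex (DD d w r) (∑ e, (d e : ℤ) * M) := by
  unfold DD
  refine ex_prod _ _ _ fun e _ => ?_
  unfold PX
  rw [Polynomial.eval_prod]
  have h1 : (d e : ℤ) * M = ∑ s ∈ Finset.univ.erase (r e), M := by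
    rw [Finset.sum_const, Finset.card_erase_of_mem (Finset.mem_univ _), Finset.card_univ,
      Fintype.card_fin, nsmul_eq_mul]
    simp
  rw [h1]
  refine ex_prod _ _ _ fun s _ => ?_
  rw [Polynomial.eval_sub, Polynomial.eval_X, Polynomial.eval_C]
  exact ex_sub (ex_T (hM _ _)) (ex_T (hM _ _))

theorem LL_ex (M : ℤ) (hM : ∀ e s, |w e s| ≤ M) (f : (Fin k → ℤ) → ℤ[T;T⁻¹]) (b : ℤ)
    (hb : ∀ j : Fin k → ℕ, (∀ e, j e ≤ d e) → Ex (f fun e => (j e : ℤ)) b)
    (r : (e : Fin k) → Fin (d e + 1)) :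
    Ex (LL d w f r) ((∑ e, (d e : ℤ) * M) + b) := by
  unfold LL
  refine ex_sum _ _ _ fun j _ => ex_mul ?_ ?_
  · refine ex_prod _ _ _ fun e _ => ?_
    have h1 := exP_prod (Finset.univ.erase (r e)) (w e) M (fun s _ => hM e s) (j e)
    rw [Finset.card_erase_of_mem (Finset.mem_univ _), Finset.card_univ, Fintype.card_fin,
      Nat.add_sub_cancel] at h1
    exact h1
  · exact hb (fun e => (j e : ℕ)) fun e => Nat.lt_succ_iff.1 (j e).2

/-- the value of the functional -/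
theorem LL_val (f : (Fin k → ℤ) → ℤ[T;T⁻¹]) (φ : ℤ[T;T⁻¹] →+* ℂ)
    (c : ((e : Fin k) → Fin (d e + 1)) → ℂ)
    (hf : ∀ a, φ (f a) = ∑ r, c r * φ (T (∑ e, w e (r e) * a e)))
    (r : (e : Fin k) → Fin (d e + 1)) : φ (LL d w f r) = c r * φ (DD d w r) := by
  have h1 : ∀ j r' : (e : Fin k) → Fin (d e + 1),
      φ (T (∑ e, w e (r' e) * ((j e : ℕ) : ℤ))) = ∏ e, φ (T (w e (r' e))) ^ (j e : ℕ) := by
    intro j r'
    rw [T_sum, map_prod]
    refine Finset.prod_congr rfl fun e _ => ?_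
    rw [← map_pow, T_pow, mul_comm]
  have h2 : ∀ r' : (e : Fin k) → Fin (d e + 1),
      ∑ j : (e : Fin k) → Fin (d e + 1), (∏ e, φ ((PX d w e (r e)).coeff (j e))) *
        ∏ e, φ (T (w e (r' e))) ^ (j e : ℕ) =
      φ (∏ e, (PX d w e (r e)).eval (T (w e (r' e)))) := by
    intro r'
    rw [map_prod]
    have h3 : ∀ e, φ ((PX d w e (r e)).eval (T (w e (r' e)))) = ∑ j : Fin (d e + 1),
        φ ((PX d w e (r e)).coeff j) * φ (T (w e (r' e))) ^ (j : ℕ) := by
      intro e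
      rw [PX_eval_sum, map_sum]
      refine Finset.sum_congr rfl fun j _ => ?_
      rw [map_mul, map_pow]
    rw [Finset.prod_congr rfl fun e _ => h3 e, Finset.prod_univ_sum, Fintype.piFinset_univ]
    refine Finset.sum_congr rfl fun j _ => ?_
    rw [Finset.prod_mul_distrib]
  unfold LL
  rw [map_sum]
  have h4 : ∀ j : (e : Fin k) → Fin (d e + 1), φ ((∏ e, (PX d w e (r e)).coeff (j e)) *
      f (fun e => ((j e : ℕ) : ℤ))) = ∑ r', c r' * ((∏ e, φ ((PX d w e (r e)).coeff (j e))) *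
        ∏ e, φ (T (w e (r' e))) ^ (j e : ℕ)) := by
    intro j
    rw [map_mul, map_prod, hf, Finset.mul_sum]
    refine Finset.sum_congr rfl fun r' _ => ?_
    rw [h1]
    ring
  rw [Finset.sum_congr rfl fun j _ => h4 j, Finset.sum_comm]
  rw [Finset.sum_eq_single r]
  · rw [← Finset.mul_sum, h2]
    rfl
  · intro r' _ hr'
    rw [← Finset.mul_sum, h2, PX_eval_zero d w r r' hr', map_zero, mul_zero]
  · intro h
    exact absurd (Finset.mem_univ _) h

/-- the expansion -/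
theorem gen (hw : ∀ e, Function.Injective (w e)) (M : ℤ) (hM : ∀ e s, |w e s| ≤ M) (D : ℤ)
    (hD : ∑ e, (d e : ℤ) * M ≤ D) (f : (Fin k → ℤ) → ℤ[T;T⁻¹]) {ι : Type*}
    (φ : ι → (ℤ[T;T⁻¹] →+* ℂ)) (hφ : ∀ p q, (∀ i, φ i p = φ i q) → p = q)
    (hf : ∀ i, ∃ c : ((e : Fin k) → Fin (d e + 1)) → ℂ, ∀ a,
      φ i (f a) = ∑ r, c r * φ i (T (∑ e, w e (r e) * a e))) (b : ℤ)
    (hb : ∀ j : Fin k → ℕ, (∀ e, j e ≤ d e) → Ex (f fun e => (j e : ℤ)) b) :
    ∃ (Q : ℤ[T;T⁻¹]) (G : ((e : Fin k) → Fin (d e + 1)) → ℤ[T;T⁻¹]), Q ≠ 0 ∧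
      Ex Q (Fintype.card ((e : Fin k) → Fin (d e + 1)) * D) ∧
      (∀ r, Ex (G r) (b + Fintype.card ((e : Fin k) → Fin (d e + 1)) * D)) ∧
      ∀ a : Fin k → ℤ, Q * f a = ∑ r, T (∑ e, w e (r e) * a e) * G r := by
  refine ⟨∏ r, DD d w r, fun r => (∏ r' ∈ Finset.univ.erase r, DD d w r') * LL d w f r,
    ?_, ?_, fun r => ?_, fun a => hφ _ _ fun i => ?_⟩
  · exact Finset.prod_ne_zero_iff.2 fun r _ => DD_ne d w hw r
  · have h1 := ex_prod Finset.univ (DD d w) (fun _ => D)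
      fun r _ => ex_mono (DD_ex d w M hM r) hD
    rw [Finset.sum_const, Finset.card_univ, nsmul_eq_mul] at h1
    exact h1
  · have h1 := ex_prod (Finset.univ.erase r) (DD d w) (fun _ => D)
      fun r _ => ex_mono (DD_ex d w M hM r) hD
    rw [Finset.sum_const, nsmul_eq_mul] at h1
    have h2 := ex_mul h1 (LL_ex d w M hM f b hb r)
    refine ex_mono h2 ?_
    have h3 : (Finset.univ.erase r).card + 1 =
        Fintype.card ((e : Fin k) → Fin (d e + 1)) := by
      rw [Finset.card_erase_add_one (Finset.mem_univ _), Finset.card_univ]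
    rw [← h3]
    push_cast
    linarith
  · obtain ⟨c, hc⟩ := hf i
    rw [map_mul, hc, map_sum, Finset.mul_sum]
    refine Finset.sum_congr rfl fun r _ => ?_
    rw [map_mul, map_mul, LL_val d w f (φ i) c hc r]
    rw [← Finset.mul_prod_erase Finset.univ (DD d w) (Finset.mem_univ r), map_mul]
    ring

end interp

/-! ### the family -/

variable {m k : ℕ}

theorem abs_lk_le (O : Outer m) {off n : ℕ} (h : off + n ≤ m) : |lk O off n| ≤ n := by
  rw [lk_eq O h]
  refine (Finset.abs_sum_le_sum_abs _ _).trans ?_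
  have h1 : ∀ j ∈ Finset.range n, |pat O.up (off + j)| ≤ 1 := by
    intro j _
    unfold pat
    split_ifs <;> simp
  refine (Finset.sum_le_sum h1).trans ?_
  simp

/-- the coefficients of the linear forms -/
def ww (O : Outer m) (B : Boxes m k) (e : Fin k) (s : Fin (B.size e / 2 + 1)) : ℤ :=
  ((B.size e - 2 * (s : ℕ) : ℕ) : ℤ) * ((B.size e - 2 * (s : ℕ) : ℕ) + 2) -
    3 * (lk O (B.off e) (B.size e)) ^ 2

theorem ww_inj (O : Outer m) (B : Boxes m k) (e : Fin k) : Function.Injective (ww O B e) := by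
  intro i j hij
  unfold ww at hij
  have hi := i.2
  have hj := j.2
  have h3 : (((B.size e - 2 * (i : ℕ) : ℕ) : ℤ) + 1) ^ 2 =
      (((B.size e - 2 * (j : ℕ) : ℕ) : ℤ) + 1) ^ 2 := by linarith
  have h4 : ((B.size e - 2 * (i : ℕ) : ℕ) : ℤ) + 1 = ((B.size e - 2 * (j : ℕ) : ℕ) : ℤ) + 1 := by
    rw [sq_eq_sq₀ (by positivity) (by positivity)] at h3
    exact h3
  apply Fin.ext
  omega

theorem ww_abs (hm : 0 < m) (O : Outer m) (B : Boxes m k) (e : Fin k)
    (s : Fin (B.size e / 2 + 1)) : |ww O B e s| ≤ 3 * (m : ℤ) ^ 2 := by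
  have h1 := abs_lk_le O (B.le e)
  have hle : B.size e ≤ m := le_trans (Nat.le_add_left _ _) (B.le e)
  have hn : (B.size e : ℤ) ≤ m := by exact_mod_cast hle
  have hm' : (1 : ℤ) ≤ m := by exact_mod_cast hm
  have h2 : (lk O (B.off e) (B.size e)) ^ 2 ≤ (m : ℤ) ^ 2 := by
    rw [← sq_abs]
    exact pow_le_pow_left₀ (abs_nonneg _) (h1.trans hn) 2
  have h3 : ((B.size e - 2 * (s : ℕ) : ℕ) : ℤ) ≤ m := by
    have : B.size e - 2 * (s : ℕ) ≤ m := (Nat.sub_le _ _).trans hle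
    exact_mod_cast this
  have h4 : (0 : ℤ) ≤ ((B.size e - 2 * (s : ℕ) : ℕ) : ℤ) := by positivity
  have h5 : ((B.size e - 2 * (s : ℕ) : ℕ) : ℤ) * ((B.size e - 2 * (s : ℕ) : ℕ) + 2) ≤
      3 * (m : ℤ) ^ 2 := by nlinarith
  have h6 : 0 ≤ ((B.size e - 2 * (s : ℕ) : ℕ) : ℤ) * ((B.size e - 2 * (s : ℕ) : ℕ) + 2) := by
    positivity
  have h7 : 0 ≤ (lk O (B.off e) (B.size e)) ^ 2 := sq_nonneg _
  unfold ww
  rw [abs_le]
  constructor <;> linarith

theorem ev_wt (O : Outer m) (B : Boxes m k) (N : ℕ) (hN : 3 ≤ N) (r : Ind B) (a : Fin k → ℤ) :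
    (xr N : ℂ) ^ (∑ e, kp O B e (r e) * a e) = ev N hN (T (∑ e, ww O B e (r e) * a e)) := by
  have hspec : ∀ e, ∃ t : ℤ, ww O B e (r e) = 4 * t ∧ kp O B e (r e) = 2 * t := fun e =>
    kap_spec (lk_parity O (B.le e)) (r e).2
  choose t ht ht' using hspec
  have e2 : ∑ e, kp O B e (r e) * a e = 2 * ∑ e, t e * a e := by
    rw [Finset.mul_sum]
    refine Finset.sum_congr rfl fun e _ => ?_
    rw [ht' e]
    ring
  have e3 : ∑ e, ww O B e (r e) * a e = 4 * ∑ e, t e * a e := by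
    rw [Finset.mul_sum]
    refine Finset.sum_congr rfl fun e _ => ?_
    rw [ht e]
    ring
  rw [ev_T, e2, e3, Ar_zpow_four N hN]

/-- FB3 -/
theorem expansion (hm : 0 < m) (O : Outer m) (B : Boxes m k) (b : ℤ)
    (hb : ∀ j : Fin k → ℕ, (∀ e, j e ≤ B.size e / 2) → Ex (family O B (fun e => (j e : ℤ))).fPoly b) :
    ∃ (Q : ℤ[T;T⁻¹]) (G : Ind B → ℤ[T;T⁻¹]), Q ≠ 0 ∧
      Ex Q (Fintype.card (Ind B) * (3 * k * m ^ 3)) ∧
      (∀ r, Ex (G r) (b + Fintype.card (Ind B) * (3 * k * m ^ 3))) ∧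
      ∀ a : Fin k → ℤ, Q * (family O B a).fPoly = ∑ r, T (wt O B (some r) a) * G r := by
  have hD : ∑ e : Fin k, ((B.size e / 2 : ℕ) : ℤ) * (3 * (m : ℤ) ^ 2) ≤ 3 * k * (m : ℤ) ^ 3 := by
    have h1 : ∀ e ∈ (Finset.univ : Finset (Fin k)),
        ((B.size e / 2 : ℕ) : ℤ) * (3 * (m : ℤ) ^ 2) ≤ (m : ℤ) * (3 * (m : ℤ) ^ 2) := by
      intro e _
      have h2 : B.size e / 2 ≤ m :=
        (Nat.div_le_self _ _).trans (le_trans (Nat.le_add_left _ _) (B.le e))
      have h3 : ((B.size e / 2 : ℕ) : ℤ) ≤ m := by exact_mod_cast h2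
      exact mul_le_mul_of_nonneg_right h3 (by positivity)
    refine (Finset.sum_le_sum h1).trans ?_
    rw [Finset.sum_const, Finset.card_univ, Fintype.card_fin, nsmul_eq_mul]
    apply le_of_eq
    ring
  exact gen (fun e => B.size e / 2) (ww O B) (ww_inj O B) (3 * (m : ℤ) ^ 2)
    (fun e s => ww_abs hm O B e s) (3 * k * (m : ℤ) ^ 3) hD (fun a => (family O B a).fPoly)
    (ι := {N : ℕ // 3 ≤ N}) (fun i => ev i.1 i.2)
    (fun p q h => Pool.Agent.TH561.eq_of_ev fun N hN => h ⟨N, hN⟩)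
    (fun i => by
      obtain ⟨c, hc⟩ := Pool.Agent.H297.FT.formula hm O B i.1 i.2
      refine ⟨c, fun a => ?_⟩
      rw [hc a]
      refine Finset.sum_congr rfl fun r _ => ?_
      rw [ev_wt O B i.1 i.2 r a])
    b hb

end Pool.Agent.N123.FB
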